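import Pool.Graph.R_pool_sql_team_seeded_ab47071d.TH166.QF.QF8
import Pool.Graph.R_pool_sql_team_seeded_3997aac3.Q90.HS.Fin18

set_option autoImplicit false

/-! # Families: the entropy bound at the centre and the power area bound near the boundary -/

namespace Pool.Agent.H194.QF

open Complex Metric Set Filter Topology MeasureTheory
open Pool.Agent.W677.Mar Pool.Agent.TH790.SF Pool.Agent.TH166.QF

/-- a Schwarz-Pick lemma: `f(0) = 0`, `|f| ≤ c X`, `|f'(0)| ≤ X`, `c > 1` -/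
theorem spc {f : ℂ → ℂ} (hf : DifferentiableOn ℂ f (ball 0 1)) (h0 : f 0 = 0) {X c : ℝ} (hX : 0 < X)
    (hc : 1 < c) (hM : ∀ z ∈ ball (0 : ℂ) 1, ‖f z‖ ≤ c * X) (hd : ‖deriv f 0‖ ≤ X) {z : ℂ}
    (hz : z ∈ ball (0 : ℂ) 1) : ‖f z‖ ≤ c * ‖z‖ * (1 + c * ‖z‖) / (c + ‖z‖) * X := by
  have hc0 : 0 < c := by linarith
  have hnhds : ball (0 : ℂ) 1 ∈ 𝓝 (0 : ℂ) := isOpen_ball.mem_nhds (mem_ball_self one_pos)
  set g : ℂ → ℂ := dslope f 0 with hg
  have hgd : DifferentiableOn ℂ g (ball 0 1) := (Complex.differentiableOn_dslope hnhds).2 hf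
  have hg0 : g 0 = deriv f 0 := dslope_same f 0
  have hgM : ∀ z ∈ ball (0 : ℂ) 1, ‖g z‖ ≤ c * X := by
    intro z hz
    have h1 : MapsTo f (ball 0 1) (closedBall (f 0) (c * X)) := by
      intro w hw
      rw [h0, mem_closedBall_zero_iff]
      exact hM w hw
    have h2 := Complex.norm_dslope_le_div_of_mapsTo_ball hf h1 hz
    rwa [div_one] at h2
  set b : ℂ := g 0 with hb
  have hbX : ‖b‖ ≤ X := by rw [hg0]; exact hd
  have hXc : X < c * X := by nlinarith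
  have hM4 : 0 < c * X := by positivity
  have hMc : ((c * X : ℝ) : ℂ) ≠ 0 := by exact_mod_cast hM4.ne'
  have hprod : ∀ q : ℂ, ‖q‖ ≤ c * X → ‖b‖ * ‖q‖ < (c * X) ^ 2 := by
    intro q hq
    calc ‖b‖ * ‖q‖ ≤ X * (c * X) := mul_le_mul hbX hq (norm_nonneg _) hX.le
      _ < (c * X) * (c * X) := mul_lt_mul_of_pos_right hXc hM4
      _ = _ := by ring
  have hden : ∀ z ∈ ball (0 : ℂ) 1, ((c * X : ℝ) : ℂ) ^ 2 - (starRingEnd ℂ) b * g z ≠ 0 := by
    intro z hz h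
    have h1 : (starRingEnd ℂ) b * g z = ((c * X : ℝ) : ℂ) ^ 2 := (sub_eq_zero.1 h).symm
    have h2 : ‖(starRingEnd ℂ) b * g z‖ = (c * X) ^ 2 := by
      rw [h1, norm_pow, Complex.norm_real, Real.norm_of_nonneg hM4.le]
    rw [norm_mul, RCLike.norm_conj] at h2
    have h3 := hprod _ (hgM z hz)
    linarith
  set φ : ℂ → ℂ := fun z => ((c * X : ℝ) : ℂ) * (g z - b) /
    (((c * X : ℝ) : ℂ) ^ 2 - (starRingEnd ℂ) b * g z) with hφ
  have hφd : DifferentiableOn ℂ φ (ball 0 1) := by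
    apply DifferentiableOn.div
    · exact (hgd.sub_const b).const_mul _
    · exact (hgd.const_mul _).const_sub _
    · exact hden
  have hφ1 : MapsTo φ (ball 0 1) (closedBall 0 1) := by
    intro w hw
    rw [mem_closedBall_zero_iff, hφ]
    simp only
    rw [norm_div, div_le_one (norm_pos_iff.2 (hden w hw))]
    apply le_of_sq_le_sq _ (norm_nonneg _)
    have h3 := hgM w hw
    have h4 : ‖((c * X : ℝ) : ℂ) ^ 2 - (starRingEnd ℂ) b * g w‖ ^ 2 -
        ‖((c * X : ℝ) : ℂ) * (g w - b)‖ ^ 2 = ((c * X) ^ 2 - ‖g w‖ ^ 2) * ((c * X) ^ 2 - ‖b‖ ^ 2) := by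
      rw [← Complex.ofReal_pow]
      simp only [← Complex.normSq_eq_norm_sq, Complex.normSq_apply, sub_re, sub_im, mul_re, mul_im,
        ofReal_re, ofReal_im, conj_re, conj_im]
      ring
    have h5 : 0 ≤ ((c * X) ^ 2 - ‖g w‖ ^ 2) * ((c * X) ^ 2 - ‖b‖ ^ 2) := by
      apply mul_nonneg
      · have := pow_le_pow_left₀ (norm_nonneg (g w)) h3 2
        linarith
      · have := pow_le_pow_left₀ (norm_nonneg b) (hbX.trans hXc.le) 2
        linarith
    linarith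
  have hφ0 : φ 0 = 0 := by simp [hφ, hb]
  have hz1 : ‖z‖ < 1 := mem_ball_zero_iff.1 hz
  have hφz : ‖φ z‖ ≤ ‖z‖ := Complex.norm_le_norm_of_mapsTo_ball hφd hφ1 hφ0 hz1
  -- solve for `g z`
  have hsol : g z * (((c * X : ℝ) : ℂ) + (starRingEnd ℂ) b * φ z) =
      ((c * X : ℝ) : ℂ) * (((c * X : ℝ) : ℂ) * φ z + b) := by
    have h1 : φ z * (((c * X : ℝ) : ℂ) ^ 2 - (starRingEnd ℂ) b * g z) =
        ((c * X : ℝ) : ℂ) * (g z - b) := by
      rw [hφ]
      simp only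
      rw [div_mul_cancel₀ _ (hden z hz)]
    generalize φ z = q at h1 ⊢
    linear_combination (-1) * h1
  have halg := sp_alg (q := φ z) hM4 (rfl : ‖b‖ = ‖b‖) (by linarith) rfl hφz hz1
  have hgz : ‖g z‖ ≤ c * (1 + c * ‖z‖) / (c + ‖z‖) * X := by
    obtain ⟨D, hD⟩ : ∃ D, D = ‖((c * X : ℝ) : ℂ) + (starRingEnd ℂ) b * φ z‖ := ⟨_, rfl⟩
    have hDpos : 0 < D := by
      have h1 := norm_sub_norm_le ((c * X : ℝ) : ℂ) (-((starRingEnd ℂ) b * φ z))
      rw [sub_neg_eq_add, norm_neg, norm_mul, RCLike.norm_conj, Complex.norm_real,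
        Real.norm_of_nonneg hM4.le, ← hD] at h1
      have h2 : ‖b‖ * ‖φ z‖ ≤ X * 1 := mul_le_mul hbX (hφz.trans hz1.le) (norm_nonneg _) hX.le
      linarith
    rw [← hD] at halg
    have h1 : ‖g z‖ * D = c * X * ‖((c * X : ℝ) : ℂ) * φ z + b‖ := by
      rw [hD, ← norm_mul, hsol, norm_mul, Complex.norm_real, Real.norm_of_nonneg hM4.le]
    obtain ⟨τ, hτ⟩ : ∃ τ, τ = ‖z‖ := ⟨_, rfl⟩
    obtain ⟨β, hβ⟩ : ∃ β, β = ‖b‖ := ⟨_, rfl⟩
    rw [← hτ, ← hβ] at halg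
    rw [← hτ]
    rw [← hβ] at hbX
    have hτ0 : 0 ≤ τ := hτ ▸ norm_nonneg z
    have hβ0 : 0 ≤ β := hβ ▸ norm_nonneg b
    have hτ1 : τ < 1 := hτ ▸ hz1
    have hp : 0 < c * X + β * τ := by positivity
    have h2 : ‖g z‖ * (c * X + β * τ) ≤ c * X * (c * X * τ + β) := by
      have h3 : (‖g z‖ * (c * X + β * τ)) * D ≤ (c * X * (c * X * τ + β)) * D := by
        calc (‖g z‖ * (c * X + β * τ)) * D = c * X * (‖((c * X : ℝ) : ℂ) * φ z + b‖ *
              (c * X + β * τ)) := by rw [← mul_assoc, ← h1]; ring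
          _ ≤ c * X * ((c * X * τ + β) * D) := mul_le_mul_of_nonneg_left halg hM4.le
          _ = _ := by ring
      exact le_of_mul_le_mul_right h3 hDpos
    have h4 : c * X * (c * X * τ + β) ≤ c * (1 + c * τ) / (c + τ) * X * (c * X + β * τ) := by
      rw [div_mul_eq_mul_div, div_mul_eq_mul_div, le_div_iff₀ (by positivity)]
      have h5 : 0 ≤ c ^ 2 * X * (X - β) * (1 - τ ^ 2) := by
        have : 0 ≤ 1 - τ ^ 2 := by nlinarith
        have : 0 ≤ X - β := by linarith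
        positivity
      have e : c * (1 + c * τ) * X * (c * X + β * τ) - c * X * (c * X * τ + β) * (c + τ) =
        c ^ 2 * X * (X - β) * (1 - τ ^ 2) := by ring
      linarith
    exact le_of_mul_le_mul_right (h2.trans h4) hp
  have hfz : f z = z * g z := by
    have := sub_smul_dslope f 0 z
    rw [sub_zero, h0, sub_zero, smul_eq_mul] at this
    exact this.symm
  rw [hfz, norm_mul]
  calc ‖z‖ * ‖g z‖ ≤ ‖z‖ * (c * (1 + c * ‖z‖) / (c + ‖z‖) * X) :=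
        mul_le_mul_of_nonneg_left hgz (norm_nonneg z)
    _ = _ := by ring

/-- the universal exponential moments in the form used here -/
theorem univ_mom : ∃ K : ℝ, 1 ≤ K ∧ ∀ (Y H : ℂ → ℂ), Sg Y H → ∀ (t : ℂ) {r : ℝ}, 0 < r → r < 1 →
    ∫ θ in (0 : ℝ)..(2 * Real.pi), Real.exp ((starRingEnd ℂ) t * H (pt r θ)).re ≤
      2 * Real.pi * (K * Real.exp (347 / 250 * ‖t‖ ^ 2 * lam (r ^ 2))) := by
  have hpi := Real.pi_pos
  obtain ⟨K, hK0, hK⟩ := Q90.HS.all_t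
  refine ⟨max K 1, le_max_right _ _, ?_⟩
  intro Y H S t r hr0 hr1
  have h1 := hK Y H S ((starRingEnd ℂ) t) r hr0 hr1
  rw [Q90.HS.mn_re, RCLike.norm_conj] at h1
  have h2 : (2 * Real.pi)⁻¹ * (∫ θ in (0 : ℝ)..(2 * Real.pi),
      Real.exp ((starRingEnd ℂ) t * H (circleMap 0 r θ)).re) ≤
      max K 1 * Real.exp (347 / 250 * ‖t‖ ^ 2 * Pool.Agent.TH325.SI.la r) :=
    h1.trans (mul_le_mul_of_nonneg_right (le_max_left _ _) (Real.exp_pos _).le)
  rw [inv_mul_le_iff₀ (by positivity)] at h2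
  exact h2

end Pool.Agent.H194.QF
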