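import Pool.Agent.H194.QF.A1

set_option autoImplicit false

/-! # Exponential moments in a Beltrami family -/

namespace Pool.Agent.H194.QF

open Complex Metric Set Filter Topology MeasureTheory
open Pool.Agent.W677.Mar Pool.Agent.TH790.SF Pool.Agent.TH166.QF

/-- the constant `2 √(347/250)` -/
noncomputable def c0 : ℝ := Real.sqrt (694 / 125)

theorem c0_sq : c0 ^ 2 = 694 / 125 := Real.sq_sqrt (by norm_num)

theorem c0_pos : 0 < c0 := Real.sqrt_pos.2 (by norm_num)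

theorem c0_gt : 2 < c0 := by
  apply lt_of_pow_lt_pow_left₀ 2 c0_pos.le
  rw [c0_sq]
  norm_num

/-- the constant of the theorem -/
noncomputable def kc (k : ℝ) : ℝ := c0 * k * (1 + c0 * k) / (c0 + k)

theorem kc_pos {k : ℝ} (hk : 0 < k) : 0 < kc k := by
  have := c0_pos
  unfold kc
  positivity

section

variable {Y H : ℂ → ℂ → ℂ} {μ : ℂ → ℂ}

/-- the bound of the pairing by the entropy -/
theorem J_bound' (S : Fam Y H μ) {K : ℝ} (hK1 : 1 ≤ K)
    (hK : ∀ (Y H : ℂ → ℂ), Sg Y H → ∀ (t : ℂ) {r : ℝ}, 0 < r → r < 1 →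
      ∫ θ in (0 : ℝ)..(2 * Real.pi), Real.exp ((starRingEnd ℂ) t * H (pt r θ)).re ≤
        2 * Real.pi * (K * Real.exp (347 / 250 * ‖t‖ ^ 2 * lam (r ^ 2))))
    {ρ : ℝ → ℝ} (hρc : Continuous ρ)
    (hρ0 : ∀ θ, 0 < ρ θ) (hρ1 : ∫ θ in (0 : ℝ)..(2 * Real.pi), ρ θ = 2 * Real.pi)
    {r : ℝ} (hr0 : 0 < r) (hr1 : r < 1) {κ : ℝ} (hκ : 0 < κ) {l : ℂ} (hl : l ∈ ball (0 : ℂ) 1) :
    ‖JJ' H ρ r l‖ ≤ c0 * (κ / 2 * (∫ θ in (0 : ℝ)..(2 * Real.pi), ρ θ * Real.log (ρ θ)) +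
      Real.pi / κ * lam (r ^ 2) + Real.pi * κ * Real.log K) := by
  have hpi := Real.pi_pos
  have hc0 := c0_pos
  have hcH : Continuous fun θ : ℝ => H l (pt r θ) := cont_circ (S.sg l hl).dH hr0.le hr1
  have hcρ : Continuous fun θ => (ρ θ : ℂ) := Complex.continuous_ofReal.comp hρc
  have hlK : 0 ≤ Real.log K := Real.log_nonneg hK1
  obtain ⟨A, hA⟩ : ∃ A, A = ∫ θ in (0 : ℝ)..(2 * Real.pi), ρ θ * Real.log (ρ θ) := ⟨_, rfl⟩
  obtain ⟨L, hL⟩ : ∃ L, L = lam (r ^ 2) := ⟨_, rfl⟩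
  have key : ∀ t : ℂ, ((starRingEnd ℂ) t * JJ' H ρ r l).re ≤
      A + 2 * Real.pi * (Real.log K + 347 / 250 * ‖t‖ ^ 2 * L) := by
    intro t
    have h1 := gibbs hρc hρ0 hρ1 (u := fun θ => ((starRingEnd ℂ) t * H l (pt r θ)).re)
      (continuous_re.comp (continuous_const.mul hcH))
      (Z := K * Real.exp (347 / 250 * ‖t‖ ^ 2 * L)) (by positivity) (by
        rw [hL]
        exact hK _ _ (S.sg l hl) t hr0 hr1)
    rw [Real.log_mul (by positivity) (Real.exp_pos _).ne', Real.log_exp, ← hA] at h1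
    have h2 : ((starRingEnd ℂ) t * JJ' H ρ r l).re =
        ∫ θ in (0 : ℝ)..(2 * Real.pi), ρ θ * ((starRingEnd ℂ) t * H l (pt r θ)).re := by
      unfold JJ'
      rw [← intervalIntegral.integral_const_mul]
      have h3 : (∫ θ in (0 : ℝ)..(2 * Real.pi), Complex.reCLM
          ((starRingEnd ℂ) t * ((ρ θ : ℂ) * H l (pt r θ)))) =
          Complex.reCLM (∫ θ in (0 : ℝ)..(2 * Real.pi),
            (starRingEnd ℂ) t * ((ρ θ : ℂ) * H l (pt r θ))) :=
        ContinuousLinearMap.intervalIntegral_comp_comm _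
          ((continuous_const.mul (hcρ.mul hcH)).intervalIntegrable 0 (2 * Real.pi))
      simp only [Complex.reCLM_apply] at h3
      rw [← h3]
      refine intervalIntegral.integral_congr fun θ _ => ?_
      have : (starRingEnd ℂ) t * ((ρ θ : ℂ) * H l (pt r θ)) =
          (ρ θ : ℂ) * ((starRingEnd ℂ) t * H l (pt r θ)) := by ring
      simp only [this, Complex.re_ofReal_mul]
    rw [h2]
    exact h1
  rw [← hA, ← hL]
  have hL0 : 0 ≤ L := by
    rw [hL]
    exact lam_nonneg (sq_nonneg r) (pow_lt_one₀ hr0.le hr1 two_ne_zero)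
  have hA0 : 0 ≤ A := by
    have h1 := gibbs hρc hρ0 hρ1 (u := fun _ => 0) continuous_const one_pos (by simp)
    simp only [mul_zero, intervalIntegral.integral_zero, Real.log_one, add_zero] at h1
    rw [hA]
    exact h1
  obtain ⟨j, hj⟩ : ∃ j, j = JJ' H ρ r l := ⟨_, rfl⟩
  rw [← hj] at key ⊢
  by_cases hj0 : j = 0
  · rw [hj0, norm_zero]
    positivity
  · have hn : 0 < ‖j‖ := norm_pos_iff.2 hj0
    -- `x = 2 / (c0 κ)`
    obtain ⟨x, hx⟩ : ∃ x, x = 2 / (c0 * κ) := ⟨_, rfl⟩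
    have hx0 : 0 < x := by rw [hx]; positivity
    have h1 := key (((x / ‖j‖ : ℝ) : ℂ) * j)
    have h2 : ((starRingEnd ℂ) (((x / ‖j‖ : ℝ) : ℂ) * j) * j).re = x * ‖j‖ := by
      rw [map_mul, Complex.conj_ofReal, mul_assoc, Complex.re_ofReal_mul]
      have : ((starRingEnd ℂ) j * j).re = ‖j‖ ^ 2 := by
        rw [mul_comm, Complex.mul_conj, Complex.ofReal_re, Complex.normSq_eq_norm_sq]
      rw [this]
      field_simp
    have h3 : ‖((x / ‖j‖ : ℝ) : ℂ) * j‖ = x := by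
      rw [norm_mul, Complex.norm_real, Real.norm_of_nonneg (by positivity)]
      field_simp
    rw [h2, h3] at h1
    have h4 : ‖j‖ ≤ (A + 2 * Real.pi * (Real.log K + 347 / 250 * x ^ 2 * L)) / x := by
      rw [le_div_iff₀ hx0]
      linarith
    refine h4.trans (le_of_eq ?_)
    have hc2 := c0_sq
    have h5 : (347 : ℝ) / 250 = c0 ^ 2 / 4 := by rw [hc2]; norm_num
    rw [h5, hx]
    field_simp
    ring

/-- **exponential moments in a family** -/
theorem fam_mom' (S : Fam Y H μ) {K : ℝ} (hK1 : 1 ≤ K)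
    (hK : ∀ (Y H : ℂ → ℂ), Sg Y H → ∀ (t : ℂ) {r : ℝ}, 0 < r → r < 1 →
      ∫ θ in (0 : ℝ)..(2 * Real.pi), Real.exp ((starRingEnd ℂ) t * H (pt r θ)).re ≤
        2 * Real.pi * (K * Real.exp (347 / 250 * ‖t‖ ^ 2 * lam (r ^ 2))))
    {k : ℝ} (hk0 : 0 < k) (hk1 : k < 1) {l : ℂ} (hl : ‖l‖ ≤ k)
    {r : ℝ} (hr0 : 1 / 2 ≤ r) (hr1 : r < 1) (t : ℂ) :
    ∫ θ in (0 : ℝ)..(2 * Real.pi), Real.exp ((starRingEnd ℂ) t * H l (pt r θ)).re ≤
      2 * Real.pi * (K * Real.exp (6 * kc k * ‖t‖) *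
        Real.exp (kc k ^ 2 / (4 * r ^ 2) * lam (r ^ 2) * ‖t‖ ^ 2)) := by
  have hpi := Real.pi_pos
  have hc00 := c0_pos
  have hlK : 0 ≤ Real.log K := Real.log_nonneg hK1
  have hK0 : 0 < K := by linarith
  have hr : 0 < r := by linarith
  have hlb : l ∈ ball (0 : ℂ) 1 := mem_ball_zero_iff.2 (hl.trans_lt hk1)
  obtain ⟨c, hc⟩ : ∃ c, c = kc k := ⟨_, rfl⟩
  have hc0 : 0 < c := by rw [hc]; exact kc_pos hk0
  rw [← hc]
  obtain ⟨L, hL⟩ : ∃ L, L = lam (r ^ 2) := ⟨_, rfl⟩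
  have hL0 : 0 < L := by
    rw [hL]
    exact lam_pos (by positivity) (pow_lt_one₀ hr.le hr1 two_ne_zero)
  have hcH : Continuous fun θ : ℝ => H l (pt r θ) := cont_circ (S.sg l hlb).dH hr.le hr1
  obtain ⟨u, hu⟩ : ∃ u : ℝ → ℝ, ∀ θ, u θ = ((starRingEnd ℂ) t * H l (pt r θ)).re := ⟨_, fun _ => rfl⟩
  have hue : u = fun θ => ((starRingEnd ℂ) t * H l (pt r θ)).re := funext hu
  have huc : Continuous u := by
    rw [hue]
    exact continuous_re.comp (continuous_const.mul hcH)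
  have hup : Function.Periodic u (2 * Real.pi) := fun θ => by
    rw [hu, hu, pt_periodic r θ]
  have hec : Continuous fun θ => Real.exp (u θ) := Real.continuous_exp.comp huc
  simp only [← hu]
  by_cases ht : t = 0
  · have h1 : ∀ θ, u θ = 0 := fun θ => by rw [hu, ht]; simp
    simp only [h1, ht, norm_zero, mul_zero, Real.exp_zero, ne_eq, OfNat.ofNat_ne_zero,
      not_false_eq_true, zero_pow, mul_one]
    rw [intervalIntegral.integral_const]
    simp only [sub_zero, smul_eq_mul, mul_one]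
    nlinarith
  have htn : 0 < ‖t‖ := norm_pos_iff.2 ht
  obtain ⟨I, hI⟩ : ∃ I, I = ∫ θ in (0 : ℝ)..(2 * Real.pi), Real.exp (u θ) := ⟨_, rfl⟩
  have hI0 : 0 < I := by
    rw [hI]
    exact intervalIntegral.intervalIntegral_pos_of_pos (hec.intervalIntegrable _ _)
      (fun θ => Real.exp_pos _) tp_pos
  obtain ⟨Z, hZ⟩ : ∃ Z, Z = I / (2 * Real.pi) := ⟨_, rfl⟩
  have hZ0 : 0 < Z := by rw [hZ]; positivity
  have hIZ : I = 2 * Real.pi * Z := by rw [hZ]; field_simp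
  rw [← hI, hIZ]
  apply mul_le_mul_of_nonneg_left _ tp_pos.le
  -- the density
  obtain ⟨ρ, hρ⟩ : ∃ ρ : ℝ → ℝ, ∀ θ, ρ θ = Real.exp (u θ) / Z := ⟨_, fun _ => rfl⟩
  have hρe : ρ = fun θ => Real.exp (u θ) / Z := funext hρ
  have hρc : Continuous ρ := by rw [hρe]; exact hec.div_const Z
  have hρp : Function.Periodic ρ (2 * Real.pi) := fun θ => by rw [hρ, hρ, hup θ]
  have hρ0 : ∀ θ, 0 < ρ θ := fun θ => by rw [hρ]; positivity
  have hρ1 : ∫ θ in (0 : ℝ)..(2 * Real.pi), ρ θ = 2 * Real.pi := by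
    rw [hρe, intervalIntegral.integral_div, ← hI, hIZ]
    field_simp
  have hlog : ∀ θ, Real.log (ρ θ) = u θ - Real.log Z := fun θ => by
    rw [hρ, Real.log_div (Real.exp_pos _).ne' hZ0.ne', Real.log_exp]
  obtain ⟨A, hA⟩ : ∃ A, A = ∫ θ in (0 : ℝ)..(2 * Real.pi), ρ θ * Real.log (ρ θ) := ⟨_, rfl⟩
  have hAe : A = ((starRingEnd ℂ) t * JJ' H ρ r l).re - 2 * Real.pi * Real.log Z := by
    have hcρ : Continuous fun θ => (ρ θ : ℂ) := Complex.continuous_ofReal.comp hρc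
    have h2 : ((starRingEnd ℂ) t * JJ' H ρ r l).re =
        ∫ θ in (0 : ℝ)..(2 * Real.pi), ρ θ * u θ := by
      unfold JJ'
      rw [← intervalIntegral.integral_const_mul]
      have h3 : (∫ θ in (0 : ℝ)..(2 * Real.pi), Complex.reCLM
          ((starRingEnd ℂ) t * ((ρ θ : ℂ) * H l (pt r θ)))) =
          Complex.reCLM (∫ θ in (0 : ℝ)..(2 * Real.pi),
            (starRingEnd ℂ) t * ((ρ θ : ℂ) * H l (pt r θ))) :=
        ContinuousLinearMap.intervalIntegral_comp_comm _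
          ((continuous_const.mul (hcρ.mul hcH)).intervalIntegrable 0 (2 * Real.pi))
      simp only [Complex.reCLM_apply] at h3
      rw [← h3]
      refine intervalIntegral.integral_congr fun θ _ => ?_
      have : (starRingEnd ℂ) t * ((ρ θ : ℂ) * H l (pt r θ)) =
          (ρ θ : ℂ) * ((starRingEnd ℂ) t * H l (pt r θ)) := by ring
      simp only [this, Complex.re_ofReal_mul, hu]
    rw [h2, hA]
    have h4 : ∀ θ, ρ θ * Real.log (ρ θ) = ρ θ * u θ - ρ θ * Real.log Z := fun θ => by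
      rw [hlog]; ring
    simp only [h4]
    have i1 : IntervalIntegrable (fun θ => ρ θ * u θ) volume 0 (2 * Real.pi) :=
      (hρc.mul huc).intervalIntegrable _ _
    have i2 : IntervalIntegrable (fun θ => ρ θ * Real.log Z) volume 0 (2 * Real.pi) :=
      (hρc.mul continuous_const).intervalIntegrable _ _
    rw [intervalIntegral.integral_sub i1 i2, intervalIntegral.integral_mul_const, hρ1]
  have hA0 : 0 ≤ A := by
    have h1 := gibbs hρc hρ0 hρ1 (u := fun _ => 0) continuous_const one_pos (by simp)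
    simp only [mul_zero, intervalIntegral.integral_zero, Real.log_one, add_zero] at h1
    rw [hA]
    exact h1
  -- the parameter of the inequality of the arithmetic and the geometric mean
  obtain ⟨κ, hκ⟩ : ∃ κ, κ = 2 * r / (‖t‖ * c) := ⟨_, rfl⟩
  have hκ0 : 0 < κ := by rw [hκ]; positivity
  obtain ⟨X, hX⟩ : ∃ X, X = 12 * Real.pi + 1 / r * (κ / 2 * A + Real.pi / κ * L) +
    Real.pi * κ * Real.log K := ⟨_, rfl⟩
  have hX0 : 0 < X := by rw [hX]; positivity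
  have hdiff : DifferentiableOn ℂ (JJ' H ρ r) (ball 0 1) := fun x hx =>
    (J_deriv S hρc hr hr1 hx).differentiableAt.differentiableWithinAt
  have hJ0 : JJ' H ρ r 0 = 0 := by
    unfold JJ'
    have : ∀ θ, H 0 (pt r θ) = 0 := fun θ => S.zero _ (pt_mem hr.le hr1 θ)
    simp [this]
  have hJM : ∀ z ∈ ball (0 : ℂ) 1, ‖JJ' H ρ r z‖ ≤ c0 * X := by
    intro z hz
    refine (J_bound' S hK1 hK hρc hρ0 hρ1 hr hr1 hκ0 hz).trans ?_
    rw [← hA, ← hL, hX]
    apply mul_le_mul_of_nonneg_left _ hc00.le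
    have h1 : 1 ≤ 1 / r := by rw [le_div_iff₀ hr]; linarith
    have h2 : 0 ≤ κ / 2 * A + Real.pi / κ * L := by positivity
    nlinarith
  have hJd : ‖deriv (JJ' H ρ r) 0‖ ≤ X := by
    rw [(J_deriv S hρc hr hr1 (mem_ball_self one_pos)).deriv]
    have h1 : ∀ θ : ℝ, deriv (fun l => H l (pt r θ)) 0 = BT μ (pt r θ)⁻¹ := fun θ =>
      S.der _ (pt_mem hr.le hr1 θ) (pt_ne hr θ)
    simp only [h1]
    have h2 := main_mu hρc hρp hρ0 hρ1 S.meas S.le_one hr0 hr1 hκ0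
    rw [← hA, ← hL] at h2
    rw [hX]
    refine h2.trans ?_
    have : 0 ≤ Real.pi * κ * Real.log K := by positivity
    linarith
  have hsp := spc hdiff hJ0 hX0 (by linarith [c0_gt]) hJM hJd hlb
  have hJl : ‖JJ' H ρ r l‖ ≤ c * X := by
    refine hsp.trans (mul_le_mul_of_nonneg_right ?_ hX0.le)
    rw [hc]
    unfold kc
    rw [div_le_div_iff₀ (by positivity) (by positivity)]
    obtain ⟨x, hx⟩ : ∃ x, x = ‖l‖ := ⟨_, rfl⟩
    rw [← hx] at hl ⊢
    have hx0 : 0 ≤ x := hx ▸ norm_nonneg l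
    have : c0 * k * (1 + c0 * k) * (c0 + x) - c0 * x * (1 + c0 * x) * (c0 + k) =
        c0 * (k - x) * (c0 + c0 ^ 2 * (k + x) + c0 * k * x) := by ring
    have h2 : 0 ≤ c0 * (k - x) * (c0 + c0 ^ 2 * (k + x) + c0 * k * x) := by
      have : 0 ≤ k - x := by linarith
      positivity
    linarith
  have hre : ((starRingEnd ℂ) t * JJ' H ρ r l).re ≤ ‖t‖ * (c * X) := by
    refine (Complex.re_le_norm _).trans ?_
    rw [norm_mul, RCLike.norm_conj]
    exact mul_le_mul_of_nonneg_left hJl htn.le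
  have hfin : 2 * Real.pi * Real.log Z ≤ ‖t‖ * (c * X) - A := by
    rw [hAe] at hA0 ⊢
    linarith
  have e1 : ‖t‖ * (c * X) - A = 2 * Real.pi * (6 * c * ‖t‖ + c ^ 2 / (4 * r ^ 2) * L * ‖t‖ ^ 2 +
      r * Real.log K) := by
    rw [hX, hκ]
    field_simp
    ring
  rw [e1] at hfin
  rw [hL] at hfin
  have h8 := le_of_mul_le_mul_left hfin tp_pos
  have h9 : r * Real.log K ≤ Real.log K := mul_le_of_le_one_left hlK hr1.le
  calc Z = Real.exp (Real.log Z) := (Real.exp_log hZ0).symm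
    _ ≤ Real.exp (Real.log K + 6 * c * ‖t‖ + c ^ 2 / (4 * r ^ 2) * lam (r ^ 2) * ‖t‖ ^ 2) := by
        apply Real.exp_le_exp.2
        linarith
    _ = _ := by
        rw [Real.exp_add, Real.exp_add, Real.exp_log hK0]

end

end Pool.Agent.H194.QF
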